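import Pool.Agent.H207.BT.Stm4
import Pool.Agent.H295.HY211.DIST

/-!
# The concrete data near a critical point
-/

set_option autoImplicit false

open Topology Filter Metric Set

namespace Pool.Agent.H379.BT207

open Pool.Agent.H790R3.RB Pool.Agent.H211.HY Pool.Agent.H207.BT
open Pool.Agent.H295.HY211 (dif_E dif_F dif_W dif_h wr_iot EE FF WW pt_ne)

theorem cr_fac (τ : Bool) (q : ℂ × ℂ) (u : ℂ) (h : dn τ q ≠ 0) :
    cr (iot τ u) q = sg τ * dn τ q * (u - lc τ q) := by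
  cases τ
  · have h' : q.1 ≠ 0 := h
    show (1 : ℂ) * q.2 - u * q.1 = (-1) * q.1 * (u - q.2 / q.1)
    field_simp
    ring
  · have h' : q.2 ≠ 0 := h
    show u * q.2 - 1 * q.1 = 1 * q.2 * (u - q.1 / q.2)
    field_simp

theorem pt_eq (τ : Bool) (q : ℂ × ℂ) (h : dn τ q ≠ 0) : q = dn τ q • iot τ (lc τ q) := by
  cases τ
  · have h' : q.1 ≠ 0 := h
    refine Prod.ext ?_ ?_
    · show q.1 = q.1 * 1
      ring
    · show q.2 = q.1 * (q.2 / q.1)
      field_simp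
  · have h' : q.2 ≠ 0 := h
    refine Prod.ext ?_ ?_
    · show q.1 = q.2 * (q.1 / q.2)
      field_simp
    · show q.2 = q.2 * 1
      ring

theorem dn_smul (τ : Bool) (a : ℂ) (p : ℂ × ℂ) : dn τ (a • p) = a * dn τ p := by
  cases τ <;> rfl

theorem sg_ne (τ : Bool) : sg τ ≠ 0 := by
  cases τ
  · show (-1 : ℂ) ≠ 0
    norm_num
  · show (1 : ℂ) ≠ 0
    norm_num

theorem dif_lc {V : Type} [NormedAddCommGroup V] [NormedSpace ℂ V] {f : V → ℂ × ℂ} {s : V}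
    (hf : DifferentiableAt ℂ f s) (τ : Bool) (h : dn τ (f s) ≠ 0) :
    DifferentiableAt ℂ (fun s => lc τ (f s)) s := by
  cases τ
  · exact ddiv hf.snd hf.fst h
  · exact ddiv hf.fst hf.snd h

theorem dif_dn {V : Type} [NormedAddCommGroup V] [NormedSpace ℂ V] {f : V → ℂ × ℂ} {s : V}
    (hf : DifferentiableAt ℂ f s) (τ : Bool) : DifferentiableAt ℂ (fun s => dn τ (f s)) s := by
  cases τ
  · exact hf.fst
  · exact hf.snd

theorem dprod {V ι : Type} [NormedAddCommGroup V] [NormedSpace ℂ V] (s : Finset ι)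
    (f : ι → V → ℂ) (x : V) (hf : ∀ i ∈ s, DifferentiableAt ℂ (f i) x) :
    DifferentiableAt ℂ (fun y => ∏ i ∈ s, f i y) x := by
  classical
  induction s using Finset.induction_on with
  | empty =>
    simp only [Finset.prod_empty]
    exact differentiableAt_const _
  | insert a s ha ih =>
    simp only [Finset.prod_insert ha]
    exact (hf a (Finset.mem_insert_self a s)).mul
      (ih fun i hi => hf i (Finset.mem_insert_of_mem hi))

theorem t_RTC (h : S_DER) : S_RTC := by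
  classical
  intro d k x₀ c₀ m X c ρ hd hnd hw hfac hfam l τ hdn
  obtain ⟨τ', hτ'⟩ : ∃ τ', τ' = tau (qo x₀ (c₀ l) 1) := ⟨_, rfl⟩
  obtain ⟨ζ₀, hζ₀⟩ : ∃ ζ₀, ζ₀ = lc τ (c₀ l, 1) := ⟨_, rfl⟩
  rw [← hτ', ← hζ₀]
  have hρ := hfam.ρ0
  have hd0 : (d : ℂ) ≠ 0 := by
    have : d ≠ 0 := by omega
    exact_mod_cast this
  have dE := dif_E hfam.dif τ τ'
  have dF := fun i => dif_F hfam.cdf τ i
  have dW := dif_W hfam.dif
  have hopen : IsOpen ((ball 0 ρ : Set (Fin k → ℂ)) ×ˢ (univ : Set ℂ)) :=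
    isOpen_ball.prod isOpen_univ
  have dC : ∀ i, ∀ s ∈ ball (0 : Fin k → ℂ) ρ, DifferentiableAt ℂ (c i) s := fun i s hs =>
    (hfam.cdf i).differentiableAt (isOpen_ball.mem_nhds hs)
  have dD : ∀ q ∈ (ball 0 ρ : Set (Fin k → ℂ)) ×ˢ (univ : Set ℂ),
      DifferentiableAt ℂ (fun q : (Fin k → ℂ) × ℂ => dn τ (c l q.1, 1)) q := by
    intro q hq
    have h1 : DifferentiableAt ℂ (fun q : (Fin k → ℂ) × ℂ => c l q.1) q :=
      (dC l q.1 hq.1).comp q differentiableAt_fst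
    exact dif_dn (h1.prodMk (differentiableAt_const (1 : ℂ))) τ
  have h0m : ((0 : Fin k → ℂ), ζ₀) ∈ (ball 0 ρ : Set (Fin k → ℂ)) ×ˢ (univ : Set ℂ) :=
    ⟨mem_ball_self hρ, mem_univ _⟩
  -- nonvanishing at the base point
  have q0 : c l 0 = c₀ l := hfam.c0 l
  have hpt := pt_eq τ (c₀ l, 1) hdn
  rw [← hζ₀] at hpt
  have nE : EE X τ τ' (0, ζ₀) ≠ 0 := by
    intro h0
    have h1 : dn τ' (hF x₀ (iot τ ζ₀)) = 0 := by
      have h2 : EE X τ τ' (0, ζ₀) = dn τ' (hF (X 0) (iot τ ζ₀)) := rfl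
      rw [h2, hfam.at0] at h0
      exact h0
    have h3 : dn τ' (hF x₀ (c₀ l, 1)) = 0 := by
      rw [hpt, hF_smul, dn_smul, h1, mul_zero]
    have h4 : hF x₀ (c₀ l, 1) ≠ 0 := fun h5 => pt_ne (c₀ l) (hnd _ h5)
    have h6 : qo x₀ (c₀ l) 1 = hF x₀ (c₀ l, 1) := rfl
    rw [hτ', h6] at h3
    exact dn_tau_ne h4 h3
  have nF : ∀ i, i ≠ l → FF c τ i (0, ζ₀) ≠ 0 := by
    intro i hi h0
    have h1 : cr (iot τ ζ₀) (c₀ i, 1) = 0 := by
      have h2 : FF c τ i (0, ζ₀) = cr (iot τ ζ₀) (c i 0, 1) := rfl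
      rw [h2, hfam.c0 i] at h0
      exact h0
    have h3 : cr (c₀ l, 1) (c₀ i, 1) = 0 := by
      rw [hpt, cr_smul_left, h1, mul_zero]
    have h4 : c₀ l - c₀ i = 0 := by
      have h5 : cr (c₀ l, 1) (c₀ i, 1) = c₀ l * 1 - 1 * c₀ i := rfl
      rw [h5] at h3
      linear_combination h3
    exact hi (hfac.inj (sub_eq_zero.1 h4)).symm
  have nD : dn τ (c l 0, 1) ≠ 0 := by
    rw [q0]
    exact hdn
  -- the neighbourhood
  have hev : ∀ᶠ q in 𝓝 ((0 : Fin k → ℂ), ζ₀), EE X τ τ' q ≠ 0 ∧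
      (∀ i, i ≠ l → FF c τ i q ≠ 0) ∧ dn τ (c l q.1, 1) ≠ 0 := by
    refine (((dE.differentiableAt (hopen.mem_nhds h0m)).continuousAt).eventually_ne nE).and
      (Filter.Eventually.and ?_ ((dD _ h0m).continuousAt.eventually_ne nD))
    rw [Filter.eventually_all]
    intro i
    by_cases hi : i = l
    · exact Filter.Eventually.of_forall fun q h1 => absurd hi h1
    · exact (((dF i).differentiableAt (hopen.mem_nhds h0m)).continuousAt.eventually_ne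
        (nF i hi)).mono fun q hq _ => hq
  obtain ⟨ρ₁, hρ₁, hball⟩ := Metric.eventually_nhds_iff_ball.1 hev
  obtain ⟨r, hr⟩ : ∃ r, r = min ρ₁ ρ := ⟨_, rfl⟩
  have hr0 : 0 < r := by
    rw [hr]
    exact lt_min hρ₁ hρ
  have hr1 : r ≤ ρ₁ := hr ▸ min_le_left _ _
  have hr2 : r ≤ ρ := hr ▸ min_le_right _ _
  have hU : ∀ s ∈ ball (0 : Fin k → ℂ) r, ∀ u ∈ ball ζ₀ r, s ∈ ball (0 : Fin k → ℂ) ρ ∧
      dn τ' (hF (X s) (iot τ u)) ≠ 0 ∧ (∀ i, i ≠ l → cr (iot τ u) (c i s, 1) ≠ 0) ∧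
      dn τ (c l s, 1) ≠ 0 := by
    intro s hs u hu
    have h1 : ((s, u) : (Fin k → ℂ) × ℂ) ∈ ball ((0 : Fin k → ℂ), ζ₀) ρ₁ := by
      rw [← ball_prod_same]
      exact ⟨ball_subset_ball hr1 hs, ball_subset_ball hr1 hu⟩
    obtain ⟨h2, h3, h4⟩ := hball _ h1
    exact ⟨ball_subset_ball hr2 hs, h2, h3, h4⟩
  have hζm : ζ₀ ∈ ball ζ₀ r := mem_ball_self hr0
  refine ⟨r, hr0, hr2, fun q => sg τ * sg τ' * (wr (X q.1) (1, 0) *
    (sg τ * dn τ (c l q.1, 1)) ^ m l * ∏ i ∈ Finset.univ.erase l, cr (iot τ q.2) (c i q.1, 1) ^ m i) /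
      ((d : ℂ) * dn τ' (hF (X q.1) (iot τ q.2)) ^ 2), ?_, ?_, ?_, ?_, ?_⟩
  · intro s hs
    obtain ⟨u1, -, -, u4⟩ := hU s hs ζ₀ hζm
    exact (dif_lc ((dC l s u1).prodMk (differentiableAt_const (1 : ℂ))) τ
      u4).differentiableWithinAt
  · rintro ⟨s, u⟩ ⟨hs, hu⟩
    obtain ⟨u1, u2, -, -⟩ := hU s hs u hu
    have h1 := (dif_h hfam.dif τ).differentiableAt (hopen.mem_nhds (⟨u1, mem_univ _⟩ :
      ((s, u) : (Fin k → ℂ) × ℂ) ∈ (ball 0 ρ : Set (Fin k → ℂ)) ×ˢ (univ : Set ℂ)))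
    exact (dif_lc h1 τ' u2).differentiableWithinAt
  · rintro ⟨s, u⟩ ⟨hs, hu⟩
    obtain ⟨u1, u2, -, -⟩ := hU s hs u hu
    have hm : ((s, u) : (Fin k → ℂ) × ℂ) ∈ (ball 0 ρ : Set (Fin k → ℂ)) ×ˢ (univ : Set ℂ) :=
      ⟨u1, mem_univ _⟩
    have e1 : DifferentiableAt ℂ (fun q : (Fin k → ℂ) × ℂ => wr (X q.1) (1, 0)) (s, u) :=
      dW.differentiableAt (hopen.mem_nhds hm)
    have e2 : DifferentiableAt ℂ (fun q : (Fin k → ℂ) × ℂ => dn τ (c l q.1, 1)) (s, u) :=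
      dD _ hm
    have e3 : ∀ i, DifferentiableAt ℂ
        (fun q : (Fin k → ℂ) × ℂ => cr (iot τ q.2) (c i q.1, 1)) (s, u) := fun i =>
      (dF i).differentiableAt (hopen.mem_nhds hm)
    have e4 : DifferentiableAt ℂ
        (fun q : (Fin k → ℂ) × ℂ => dn τ' (hF (X q.1) (iot τ q.2))) (s, u) :=
      dE.differentiableAt (hopen.mem_nhds hm)
    have e5 : DifferentiableAt ℂ (fun q : (Fin k → ℂ) × ℂ => ∏ i ∈ Finset.univ.erase l,
        cr (iot τ q.2) (c i q.1, 1) ^ m i) (s, u) :=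
      dprod _ _ _ fun i _ => (e3 i).pow (m i)
    refine (ddiv (((e1.mul ((e2.const_mul (sg τ)).pow (m l))).mul e5).const_mul (sg τ * sg τ'))
      ((e4.pow 2).const_mul (d : ℂ)) ?_).differentiableWithinAt
    exact mul_ne_zero hd0 (pow_ne_zero 2 u2)
  · rintro ⟨s, u⟩ ⟨hs, hu⟩
    obtain ⟨u1, u2, u3, u4⟩ := hU s hs u hu
    exact div_ne_zero (mul_ne_zero (mul_ne_zero (sg_ne τ) (sg_ne τ'))
      (mul_ne_zero (mul_ne_zero (hfam.ne s u1) (pow_ne_zero _ (mul_ne_zero (sg_ne τ) u4)))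
        (Finset.prod_ne_zero_iff.2 fun i hi => pow_ne_zero _ (u3 i (Finset.ne_of_mem_erase hi)))))
      (mul_ne_zero hd0 (pow_ne_zero 2 u2))
  · intro s hs
    obtain ⟨u1, -, -, u4⟩ := hU s hs ζ₀ hζm
    refine ⟨u4, ?_, ?_⟩
    · have h1 := pt_eq τ (c l s, 1) u4
      show lc τ' (hF (X s) (iot τ (lc τ (c l s, 1)))) = lc (tau (qo x₀ (c₀ l) 1)) (hF (X s) (c l s, 1))
      rw [← hτ']
      conv_rhs => rw [h1, hF_smul]
      rw [lc_smul τ' (pow_ne_zero d u4)]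
    · intro u hu
      obtain ⟨-, u2, u3, -⟩ := hU s hs u hu
      have hwr : wr (X s) (iot τ u) = (u - lc τ (c l s, 1)) ^ m l * (wr (X s) (1, 0) *
          (sg τ * dn τ (c l s, 1)) ^ m l *
          ∏ i ∈ Finset.univ.erase l, cr (iot τ u) (c i s, 1) ^ m i) := by
        rw [wr_iot (X s) hd (fun i => c i s) m hfac.deg (hfam.fac s u1) τ u,
          ← Finset.mul_prod_erase Finset.univ _ (Finset.mem_univ l), cr_fac τ (c l s, 1) u u4,
          mul_pow]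
        ring
      refine ⟨?_, lc_cr u2, ?_⟩
      · have h1 := (h d k τ τ' u hd).1 (X s) u2
        rw [hwr] at h1
        have e : (u - lc τ (c l s, 1)) ^ m l * (sg τ * sg τ' * (wr (X s) (1, 0) *
            (sg τ * dn τ (c l s, 1)) ^ m l *
            ∏ i ∈ Finset.univ.erase l, cr (iot τ u) (c i s, 1) ^ m i) /
            ((d : ℂ) * dn τ' (hF (X s) (iot τ u)) ^ 2)) =
          sg τ * sg τ' * ((u - lc τ (c l s, 1)) ^ m l * (wr (X s) (1, 0) *
            (sg τ * dn τ (c l s, 1)) ^ m l *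
            ∏ i ∈ Finset.univ.erase l, cr (iot τ u) (c i s, 1) ^ m i)) /
            ((d : ℂ) * dn τ' (hF (X s) (iot τ u)) ^ 2) := by ring
        show HasDerivAt (GG (X s) τ τ') ((u - lc τ (c l s, 1)) ^ m l * (sg τ * sg τ' *
            (wr (X s) (1, 0) * (sg τ * dn τ (c l s, 1)) ^ m l *
            ∏ i ∈ Finset.univ.erase l, cr (iot τ u) (c i s, 1) ^ m i) /
            ((d : ℂ) * dn τ' (hF (X s) (iot τ u)) ^ 2))) u
        rw [e]
        exact h1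
      · intro h0
        rw [hwr] at h0
        rcases mul_eq_zero.1 h0 with h1 | h1
        · exact sub_eq_zero.1 ((pow_eq_zero_iff (Nat.one_le_iff_ne_zero.1 (hfac.pos l))).1 h1)
        · exact absurd h1 (mul_ne_zero (mul_ne_zero (hfam.ne s u1)
            (pow_ne_zero _ (mul_ne_zero (sg_ne τ) u4))) (Finset.prod_ne_zero_iff.2 fun i hi =>
              pow_ne_zero _ (u3 i (Finset.ne_of_mem_erase hi))))

end Pool.Agent.H379.BT207
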